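import Pool.Agent.Helper15_SIU.Stmts

/-!
Squad SIU (MP_021b97_an), module FIB (helper44): Fubini along the torus orbits.
-/

set_option autoImplicit false

open MeasureTheory Filter Topology
open scoped ENNReal

namespace Pool.Agent.SIU.H44

/-- splitting of the coordinates -/
def eq7 : Fin 3 ⊕ Fin 4 ≃ Fin 7 where
  toFun := Sum.elim ![1, 4, 6] ![0, 2, 3, 5]
  invFun := ![Sum.inr 0, Sum.inl 0, Sum.inr 1, Sum.inr 2, Sum.inl 1, Sum.inr 3, Sum.inl 2]
  left_inv := by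
    rintro (i | i) <;> fin_cases i <;> rfl
  right_inv := by
    intro i
    fin_cases i <;> rfl

/-- the splitting as a measurable equivalence -/
noncomputable def spl : ((Fin 3 → ℂ) × (Fin 4 → ℂ)) ≃ᵐ E7 :=
  (MeasurableEquiv.sumPiEquivProdPi (fun _ : Fin 3 ⊕ Fin 4 => ℂ)).symm.trans
    (MeasurableEquiv.piCongrLeft (fun _ : Fin 7 => ℂ) eq7)

theorem spl_apply (c : Fin 3 → ℂ) (w : Fin 4 → ℂ) :
    spl (c, w) = ![w 0, c 0, w 1, w 2, c 1, w 3, c 2] := by
  have h : ∀ a : Fin 3 ⊕ Fin 4, spl (c, w) (eq7 a) = Sum.elim c w a := by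
    intro a
    have h1 := Equiv.piCongrLeft_apply_apply (P := fun _ : Fin 7 => ℂ) (e := eq7)
      ((MeasurableEquiv.sumPiEquivProdPi (fun _ : Fin 3 ⊕ Fin 4 => ℂ)).symm (c, w)) a
    refine h1.trans ?_
    cases a <;> rfl
  funext k
  fin_cases k
  · exact h (Sum.inr 0)
  · exact h (Sum.inl 0)
  · exact h (Sum.inr 1)
  · exact h (Sum.inr 2)
  · exact h (Sum.inl 1)
  · exact h (Sum.inr 3)
  · exact h (Sum.inl 2)

theorem spl_mp : MeasurePreserving spl volume volume :=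
  (volume_measurePreserving_sumPiEquivProdPi_symm (fun _ : Fin 3 ⊕ Fin 4 => ℂ)).trans
    (volume_measurePreserving_piCongrLeft (fun _ : Fin 7 => ℂ) eq7)

/-- multiplication of the coordinates -/
noncomputable def dg (u : Fin 4 → ℂ) : (Fin 4 → ℂ) →ₗ[ℂ] (Fin 4 → ℂ) :=
  Matrix.toLin' (Matrix.diagonal u)

theorem dg_apply (u x : Fin 4 → ℂ) (i : Fin 4) : dg u x i = u i * x i := by
  unfold dg
  rw [Matrix.toLin'_apply, Matrix.mulVec_diagonal]

theorem det_dg (u : Fin 4 → ℂ) :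
    LinearMap.det ((dg u).restrictScalars ℝ) = ∏ i, ‖u i‖ ^ 2 := by
  rw [LinearMap.det_restrictScalars, Algebra.norm_complex_apply]
  unfold dg
  rw [LinearMap.det_toLin', Matrix.det_diagonal, Complex.normSq_eq_norm_sq, norm_prod,
    Finset.prod_pow]

theorem scale (u : Fin 4 → ℂ) (hu : ∀ i, u i ≠ 0) (h : (Fin 4 → ℂ) → ℝ≥0∞) (hh : Measurable h) :
    ∫⁻ x : Fin 4 → ℂ, h x = ∫⁻ x : Fin 4 → ℂ, h (fun i => u i * x i) * ENNReal.ofReal (∏ i, ‖u i‖ ^ 2) := by
  have hpos : 0 < ∏ i, ‖u i‖ ^ 2 :=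
    Finset.prod_pos fun i _ => by
      have := norm_pos_iff.2 (hu i)
      positivity
  have hdet : LinearMap.det ((dg u).restrictScalars ℝ) ≠ 0 := by
    rw [det_dg]
    exact hpos.ne'
  have hmap := Measure.map_linearMap_addHaar_eq_smul_addHaar
    (volume : Measure (Fin 4 → ℂ)) hdet
  have hmeas : Measurable ((dg u).restrictScalars ℝ) :=
    (LinearMap.continuous_of_finiteDimensional _).measurable
  have hl : ∫⁻ x : Fin 4 → ℂ, h (fun i => u i * x i) = ENNReal.ofReal |(∏ i, ‖u i‖ ^ 2)⁻¹| * ∫⁻ x, h x := by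
    have e1 : (fun x : Fin 4 → ℂ => h (fun i => u i * x i))
        = fun x => h (((dg u).restrictScalars ℝ) x) := by
      funext x
      congr 1
      funext i
      exact (dg_apply u x i).symm
    rw [e1, ← lintegral_map hh hmeas, hmap, lintegral_smul_measure, det_dg]
    rfl
  have hm2 : Measurable fun x : Fin 4 → ℂ => h (fun i => u i * x i) := hh.comp (by fun_prop)
  rw [lintegral_mul_const _ hm2, hl, mul_assoc, mul_comm (∫⁻ x, h x),
    ← mul_assoc, ← ENNReal.ofReal_mul (abs_nonneg _), abs_of_pos (inv_pos.2 hpos),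
    inv_mul_cancel₀ hpos.ne', ENNReal.ofReal_one, one_mul]

theorem ae_ne : ∀ᵐ c : Fin 3 → ℂ, ∀ j, c j ≠ 0 := by
  rw [ae_all_iff]
  intro j
  have h : (volume : Measure (Fin 3 → ℂ)) {c | c j = 0} = 0 :=
    Measure.pi_hyperplane (fun _ : Fin 3 => (volume : Measure ℂ)) j 0
  exact measure_eq_zero_iff_ae_notMem.1 h

theorem fib : FibStmt := by
  intro g hg
  have h1 : ∫⁻ z, g z = ∫⁻ p : (Fin 3 → ℂ) × (Fin 4 → ℂ), g (spl p) :=
    (spl_mp.lintegral_comp hg).symm
  have h2 : Measurable fun p : (Fin 3 → ℂ) × (Fin 4 → ℂ) => g (spl p) := hg.comp spl.measurable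
  rw [h1, Measure.volume_eq_prod, lintegral_prod _ h2.aemeasurable]
  refine lintegral_congr_ae ?_
  filter_upwards [ae_ne] with c hc
  have h0 := hc 0
  have h01 := hc 1
  have h02 := hc 2
  have hgm : Measurable fun w : Fin 4 → ℂ => g (spl (c, w)) :=
    hg.comp (spl.measurable.comp measurable_prodMk_left)
  rw [scale ![c 0, (c 0)⁻¹ * c 1, (c 0)⁻¹ * c 1, c 2] ?_ _ hgm]
  · refine lintegral_congr fun x => ?_
    rw [spl_apply, act_eq]
    congr 2
    · funext k
      fin_cases k <;> simp [sig]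
    · have e1 : ∀ a b d : ℝ, a ^ 2 * (a⁻¹ * b) ^ 2 * (a⁻¹ * b) ^ 2 * d ^ 2
          = a ^ 2 * (a⁻¹ * b) ^ 4 * d ^ 2 := by
        intro a b d
        ring
      rw [← e1, Fin.prod_univ_four]
      simp
  · intro i
    fin_cases i
    · exact h0
    · exact mul_ne_zero (inv_ne_zero h0) h01
    · exact mul_ne_zero (inv_ne_zero h0) h01
    · exact h02

end Pool.Agent.SIU.H44
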