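import Pool.Agent.Helper15_SIU.Stmts

/-!
Squad SIU (MP_021b97_an), module DEN (helper44): bound for horizontal forms of top degree.
-/

set_option autoImplicit false

open MeasureTheory Filter Topology
open scoped ENNReal

namespace Pool.Agent.SIU.H44

/-- two slots at once -/
noncomputable def B2 (η : Alt 7 8) (m : Fin 8 → E7) (i0 i1 : Fin 8) (a b : E7) : ℝ :=
  η (Function.update (Function.update m i0 a) i1 b)

theorem B2_add_right (η : Alt 7 8) (m : Fin 8 → E7) (i0 i1 : Fin 8) (a b b' : E7) :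
    B2 η m i0 i1 a (b + b') = B2 η m i0 i1 a b + B2 η m i0 i1 a b' :=
  η.map_update_add _ _ _ _

theorem B2_smul_right (η : Alt 7 8) (m : Fin 8 → E7) (i0 i1 : Fin 8) (a b : E7) (t : ℝ) :
    B2 η m i0 i1 a (t • b) = t * B2 η m i0 i1 a b :=
  η.map_update_smul _ _ _ _

theorem B2_comm (η : Alt 7 8) (m : Fin 8 → E7) {i0 i1 : Fin 8} (h : i0 ≠ i1) (a b : E7) :
    B2 η m i0 i1 a b = η (Function.update (Function.update m i1 b) i0 a) := by
  unfold B2
  rw [Function.update_comm h]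

theorem B2_add_left (η : Alt 7 8) (m : Fin 8 → E7) {i0 i1 : Fin 8} (h : i0 ≠ i1) (a a' b : E7) :
    B2 η m i0 i1 (a + a') b = B2 η m i0 i1 a b + B2 η m i0 i1 a' b := by
  rw [B2_comm η m h, B2_comm η m h, B2_comm η m h]
  exact η.map_update_add _ _ _ _

theorem B2_smul_left (η : Alt 7 8) (m : Fin 8 → E7) {i0 i1 : Fin 8} (h : i0 ≠ i1) (a b : E7)
    (t : ℝ) : B2 η m i0 i1 (t • a) b = t * B2 η m i0 i1 a b := by
  rw [B2_comm η m h, B2_comm η m h]
  exact η.map_update_smul _ _ _ _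

theorem B2_self (η : Alt 7 8) (m : Fin 8 → E7) {i0 i1 : Fin 8} (h : i0 ≠ i1) (a : E7) :
    B2 η m i0 i1 a a = 0 := by
  unfold B2
  refine η.map_eq_zero_of_eq _ (i := i0) (j := i1) ?_ h
  rw [Function.update_of_ne h, Function.update_self, Function.update_self]

theorem B2_swap (η : Alt 7 8) (m : Fin 8 → E7) {i0 i1 : Fin 8} (h : i0 ≠ i1) (a b : E7) :
    B2 η m i0 i1 b a = - B2 η m i0 i1 a b := by
  have h1 := B2_self η m h (a + b)
  rw [B2_add_right, B2_add_left η m h, B2_add_left η m h, B2_self η m h, B2_self η m h] at h1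
  linarith

/-- the value on complex pairs -/
theorem B2_mul (η : Alt 7 8) (m : Fin 8 → E7) {i0 i1 : Fin 8} (h : i0 ≠ i1) (x : E7) (μ : ℂ) :
    B2 η m i0 i1 (μ • x) (Complex.I • (μ • x)) = ‖μ‖ ^ 2 * B2 η m i0 i1 x (Complex.I • x) := by
  have e1 : μ • x = μ.re • x + μ.im • (Complex.I • x) := by
    funext k
    simp only [Pi.smul_apply, Pi.add_apply, smul_eq_mul, Complex.real_smul]
    nth_rewrite 1 [← Complex.re_add_im μ]
    ring
  have e2 : Complex.I • (μ • x) = μ.re • (Complex.I • x) + (-μ.im) • x := by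
    funext k
    simp only [Pi.smul_apply, Pi.add_apply, smul_eq_mul, Complex.real_smul]
    nth_rewrite 1 [← Complex.re_add_im μ]
    push_cast
    linear_combination (μ.im * x k) * Complex.I_mul_I
  rw [e2, e1, B2_add_right, B2_add_left η m h, B2_add_left η m h, B2_smul_right, B2_smul_right,
    B2_smul_left η m h, B2_smul_left η m h, B2_smul_right, B2_smul_right,
    B2_smul_left η m h, B2_smul_left η m h, B2_self η m h, B2_self η m h,
    B2_swap η m h x (Complex.I • x), Complex.sq_norm, Complex.normSq_apply]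
  ring

/-- `u` and `i u` are killed in the slots `i0`, `i1` -/
def Kil (η : Alt 7 8) (m : Fin 8 → E7) (i0 i1 : Fin 8) (u : E7) : Prop :=
  ∀ a : E7, B2 η m i0 i1 u a = 0 ∧ B2 η m i0 i1 (Complex.I • u) a = 0 ∧
    B2 η m i0 i1 a u = 0 ∧ B2 η m i0 i1 a (Complex.I • u) = 0

theorem Kil.add {η : Alt 7 8} {m : Fin 8 → E7} {i0 i1 : Fin 8} (h : i0 ≠ i1) {u v : E7}
    (hu : Kil η m i0 i1 u) (hv : Kil η m i0 i1 v) : Kil η m i0 i1 (u + v) := by
  intro a
  obtain ⟨a1, a2, a3, a4⟩ := hu a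
  obtain ⟨b1, b2, b3, b4⟩ := hv a
  refine ⟨?_, ?_, ?_, ?_⟩
  · rw [B2_add_left η m h, a1, b1, add_zero]
  · rw [smul_add, B2_add_left η m h, a2, b2, add_zero]
  · rw [B2_add_right, a3, b3, add_zero]
  · rw [smul_add, B2_add_right, a4, b4, add_zero]

theorem Kil.smul {η : Alt 7 8} {m : Fin 8 → E7} {i0 i1 : Fin 8} (h : i0 ≠ i1) {u : E7}
    (hu : Kil η m i0 i1 u) (μ : ℂ) : Kil η m i0 i1 (μ • u) := by
  have e1 : μ • u = μ.re • u + μ.im • (Complex.I • u) := by
    funext k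
    simp only [Pi.smul_apply, Pi.add_apply, smul_eq_mul, Complex.real_smul]
    nth_rewrite 1 [← Complex.re_add_im μ]
    ring
  have e2 : Complex.I • (μ • u) = μ.re • (Complex.I • u) + (-μ.im) • u := by
    funext k
    simp only [Pi.smul_apply, Pi.add_apply, smul_eq_mul, Complex.real_smul]
    nth_rewrite 1 [← Complex.re_add_im μ]
    push_cast
    linear_combination (μ.im * u k) * Complex.I_mul_I
  intro a
  obtain ⟨a1, a2, a3, a4⟩ := hu a
  refine ⟨?_, ?_, ?_, ?_⟩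
  · rw [e1, B2_add_left η m h, B2_smul_left η m h, B2_smul_left η m h, a1, a2]
    ring
  · rw [e2, B2_add_left η m h, B2_smul_left η m h, B2_smul_left η m h, a1, a2]
    ring
  · rw [e1, B2_add_right, B2_smul_right, B2_smul_right, a3, a4]
    ring
  · rw [e2, B2_add_right, B2_smul_right, B2_smul_right, a3, a4]
    ring

/-- other complex pairs of arguments are killed -/
theorem Kil.of_pair (η : Alt 7 8) (m : Fin 8 → E7) {i0 i1 j0 j1 : Fin 8} (h : i0 ≠ i1)
    (h1 : j0 ≠ i0) (h2 : j0 ≠ i1) (h3 : j1 ≠ i0) (h4 : j1 ≠ i1) (hm : m j1 = Complex.I • m j0) :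
    Kil η m i0 i1 (m j0) := by
  intro a
  refine ⟨?_, ?_, ?_, ?_⟩
  · unfold B2
    refine η.map_eq_zero_of_eq _ (i := i0) (j := j0) ?_ h1.symm
    rw [Function.update_of_ne h, Function.update_self, Function.update_of_ne h2,
      Function.update_of_ne h1]
  · unfold B2
    refine η.map_eq_zero_of_eq _ (i := i0) (j := j1) ?_ h3.symm
    rw [Function.update_of_ne h, Function.update_self, Function.update_of_ne h4,
      Function.update_of_ne h3, hm]
  · unfold B2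
    refine η.map_eq_zero_of_eq _ (i := i1) (j := j0) ?_ h2.symm
    rw [Function.update_self, Function.update_of_ne h2, Function.update_of_ne h1]
  · unfold B2
    refine η.map_eq_zero_of_eq _ (i := i1) (j := j1) ?_ h4.symm
    rw [Function.update_self, Function.update_of_ne h4, Function.update_of_ne h3, hm]

theorem vert_I {z v : E7} (h : X2.Vert z v) : X2.Vert z (Complex.I • v) := by
  obtain ⟨a, ha⟩ := h
  refine ⟨fun j => Complex.I * a j, fun k => ?_⟩
  rw [Pi.smul_apply, smul_eq_mul, ha k, ← mul_assoc, Finset.mul_sum]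
  congr 1
  refine Finset.sum_congr rfl fun j _ => ?_
  ring

/-- vertical vectors are killed -/
theorem Kil.of_vert {η : Alt 7 8} {z : E7}
    (hη : ∀ (v : Fin 8 → E7) (i : Fin 8), X2.Vert z (v i) → η v = 0) (m : Fin 8 → E7)
    {i0 i1 : Fin 8} (h : i0 ≠ i1) {v : E7} (hv : X2.Vert z v) : Kil η m i0 i1 v := by
  intro a
  refine ⟨?_, ?_, ?_, ?_⟩
  · refine hη _ i0 ?_
    rw [Function.update_of_ne h, Function.update_self]
    exact hv
  · refine hη _ i0 ?_
    rw [Function.update_of_ne h, Function.update_self]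
    exact vert_I hv
  · refine hη _ i1 ?_
    rw [Function.update_self]
    exact hv
  · refine hη _ i1 ?_
    rw [Function.update_self]
    exact vert_I hv

theorem B2_kil {η : Alt 7 8} {m : Fin 8 → E7} {i0 i1 : Fin 8} (h : i0 ≠ i1) {u x : E7} (μ : ℂ)
    (hu : Kil η m i0 i1 u) :
    B2 η m i0 i1 (μ • x + u) (Complex.I • (μ • x + u)) =
      ‖μ‖ ^ 2 * B2 η m i0 i1 x (Complex.I • x) := by
  rw [smul_add, B2_add_right, B2_add_left η m h, (hu _).1, (hu _).2.2.2, add_zero, add_zero,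
    B2_mul η m h]

/-- the form on four complex pairs -/
noncomputable def H (η : Alt 7 8) (a b c d : E7) : ℝ :=
  η ![a, Complex.I • a, b, Complex.I • b, c, Complex.I • c, d, Complex.I • d]

theorem H_eq0 (η : Alt 7 8) (a x b c d : E7) : H η x b c d =
    B2 η ![a, Complex.I • a, b, Complex.I • b, c, Complex.I • c, d, Complex.I • d] 0 1 x
      (Complex.I • x) := by
  unfold H B2
  congr 1
  funext k
  fin_cases k <;> rfl

theorem H_eq1 (η : Alt 7 8) (a x b c d : E7) : H η a x c d =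
    B2 η ![a, Complex.I • a, b, Complex.I • b, c, Complex.I • c, d, Complex.I • d] 2 3 x
      (Complex.I • x) := by
  unfold H B2
  congr 1
  funext k
  fin_cases k <;> rfl

theorem H_eq2 (η : Alt 7 8) (a x b c d : E7) : H η a b x d =
    B2 η ![a, Complex.I • a, b, Complex.I • b, c, Complex.I • c, d, Complex.I • d] 4 5 x
      (Complex.I • x) := by
  unfold H B2
  congr 1
  funext k
  fin_cases k <;> rfl

theorem H_eq3 (η : Alt 7 8) (a x b c d : E7) : H η a b c x =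
    B2 η ![a, Complex.I • a, b, Complex.I • b, c, Complex.I • c, d, Complex.I • d] 6 7 x
      (Complex.I • x) := by
  unfold H B2
  congr 1
  funext k
  fin_cases k <;> rfl

theorem H_le (η : Alt 7 8) (a b c d : E7) (ha : ‖a‖ ≤ 1) (hb : ‖b‖ ≤ 1) (hc : ‖c‖ ≤ 1)
    (hd : ‖d‖ ≤ 1) : |H η a b c d| ≤ ‖η‖ := by
  unfold H
  have h := η.le_opNorm ![a, Complex.I • a, b, Complex.I • b, c, Complex.I • c, d, Complex.I • d]
  refine (Real.norm_eq_abs _ ▸ h).trans ?_
  refine mul_le_of_le_one_right (norm_nonneg _) ?_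
  refine Finset.prod_le_one (fun i _ => norm_nonneg _) fun i _ => ?_
  fin_cases i <;> simp [norm_smul, ha, hb, hc, hd]

/-- the basis vectors -/
noncomputable def bv (j : Fin 7) : E7 := Pi.single j 1

theorem bv_norm (j : Fin 7) : ‖bv j‖ ≤ 1 := by
  unfold bv
  rw [Pi.norm_single]
  simp

theorem bv_def (j : Fin 7) : bv j = fun k => if k = j then 1 else 0 := by
  funext k
  unfold bv
  rw [Pi.single_apply]

/-- the vertical vectors -/
theorem vert1 (z : E7) : X2.Vert z ![z 0, z 1, -z 2, -z 3, 0, 0, 0] := by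
  rw [vert_iff]
  refine ⟨1, 0, 0, ?_⟩
  funext k
  fin_cases k <;> simp

theorem vert2 (z : E7) : X2.Vert z ![0, 0, z 2, z 3, z 4, 0, 0] := by
  rw [vert_iff]
  refine ⟨0, 1, 0, ?_⟩
  funext k
  fin_cases k <;> simp

theorem vert3 (z : E7) : X2.Vert z ![0, 0, 0, 0, 0, z 5, z 6] := by
  rw [vert_iff]
  refine ⟨0, 0, 1, ?_⟩
  funext k
  fin_cases k <;> simp

theorem ratio {a b : ℂ} {r : ℝ} (hr : 0 < r) (h : 1 / r ≤ ‖b‖ ^ 2) :
    ‖-(a / b)‖ ^ 2 ≤ r * ‖a‖ ^ 2 := by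
  have hb : 0 < ‖b‖ ^ 2 := lt_of_lt_of_le (by positivity) h
  rw [norm_neg, norm_div, div_pow, div_le_iff₀ hb]
  have h1 : 1 ≤ r * ‖b‖ ^ 2 := by
    rw [div_le_iff₀ hr] at h
    linarith
  nlinarith [sq_nonneg ‖a‖]

section steps
variable {η : Alt 7 8} {z : E7} (hη : ∀ (v : Fin 8 → E7) (i : Fin 8), X2.Vert z (v i) → η v = 0)
include hη

theorem step1 (hA : 1 / 2 ≤ AA z) : ∃ f : E7, ‖f‖ ≤ 1 ∧
    |H η (bv 0) (bv 2) (bv 3) (bv 5)| ≤ 4 * ‖z 1‖ ^ 2 * |H η f (bv 2) (bv 3) (bv 5)| := by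
  by_cases h1 : 1 / 4 ≤ ‖z 1‖ ^ 2
  · refine ⟨bv 0, bv_norm 0, ?_⟩
    have := abs_nonneg (H η (bv 0) (bv 2) (bv 3) (bv 5))
    nlinarith
  · have h0 : 1 / 4 ≤ ‖z 0‖ ^ 2 := by
      unfold AA at hA
      push Not at h1
      linarith
    have hz : z 0 ≠ 0 := by
      intro h
      rw [h] at h0
      norm_num at h0
    refine ⟨bv 1, bv_norm 1, ?_⟩
    have e : bv 0 = (-(z 1 / z 0)) • bv 1 + ((z 2 / z 0) • bv 2 + ((z 3 / z 0) • bv 3 +
        (1 / z 0) • (![z 0, z 1, -z 2, -z 3, 0, 0, 0] : E7))) := by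
      funext k
      simp only [Pi.add_apply, Pi.smul_apply, smul_eq_mul, bv_def]
      fin_cases k <;> simp <;> field_simp <;> ring
    set m : Fin 8 → E7 := ![bv 1, Complex.I • bv 1, bv 2, Complex.I • bv 2, bv 3,
      Complex.I • bv 3, bv 5, Complex.I • bv 5] with hm
    have hk : Kil η m 0 1 ((z 2 / z 0) • bv 2 + ((z 3 / z 0) • bv 3 +
        (1 / z 0) • (![z 0, z 1, -z 2, -z 3, 0, 0, 0] : E7))) := by
      refine Kil.add (by decide) (Kil.smul (by decide) ?_ _) (Kil.add (by decide)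
        (Kil.smul (by decide) ?_ _) (Kil.smul (by decide) (Kil.of_vert hη m (by decide)
          (vert1 z)) _))
      · exact Kil.of_pair η m (j0 := 2) (j1 := 3) (by decide) (by decide) (by decide)
          (by decide) (by decide) rfl
      · exact Kil.of_pair η m (j0 := 4) (j1 := 5) (by decide) (by decide) (by decide)
          (by decide) (by decide) rfl
    rw [H_eq0 η (bv 1) (bv 0), H_eq0 η (bv 1) (bv 1), ← hm, e, B2_kil (by decide) _ hk, abs_mul,
      abs_of_nonneg (sq_nonneg _)]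
    exact mul_le_mul_of_nonneg_right (ratio (by norm_num) h0) (abs_nonneg _)

theorem step2 (f : E7) (hA : AA z ≤ 2) (hD : 1 / 2 ≤ DD z) : ∃ g g' : E7, ‖g‖ ≤ 1 ∧ ‖g'‖ ≤ 1 ∧
    |H η f (bv 2) (bv 3) (bv 5)| ≤ 16 * ‖z 4‖ ^ 2 * |H η f g g' (bv 5)| := by
  by_cases h4 : 1 / 16 ≤ ‖z 4‖ ^ 2
  · refine ⟨bv 2, bv 3, bv_norm 2, bv_norm 3, ?_⟩
    have := abs_nonneg (H η f (bv 2) (bv 3) (bv 5))
    nlinarith
  push Not at h4
  have hB : 7 / 32 ≤ BB z := by
    rw [DD_eq] at hD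
    have := BB_nonneg z
    nlinarith
  by_cases h2 : 1 / 16 ≤ ‖z 2‖ ^ 2
  · have hz : z 2 ≠ 0 := by
      intro h
      rw [h] at h2
      norm_num at h2
    refine ⟨bv 4, bv 3, bv_norm 4, bv_norm 3, ?_⟩
    have e : bv 2 = (-(z 4 / z 2)) • bv 4 + ((-(z 3 / z 2)) • bv 3 +
        (1 / z 2) • (![0, 0, z 2, z 3, z 4, 0, 0] : E7)) := by
      funext k
      simp only [Pi.add_apply, Pi.smul_apply, smul_eq_mul, bv_def]
      fin_cases k <;> simp <;> field_simp <;> ring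
    set m : Fin 8 → E7 := ![f, Complex.I • f, bv 4, Complex.I • bv 4, bv 3,
      Complex.I • bv 3, bv 5, Complex.I • bv 5] with hm
    have hk : Kil η m 2 3 ((-(z 3 / z 2)) • bv 3 +
        (1 / z 2) • (![0, 0, z 2, z 3, z 4, 0, 0] : E7)) := by
      refine Kil.add (by decide) (Kil.smul (by decide) ?_ _)
        (Kil.smul (by decide) (Kil.of_vert hη m (by decide) (vert2 z)) _)
      exact Kil.of_pair η m (j0 := 4) (j1 := 5) (by decide) (by decide) (by decide)
          (by decide) (by decide) rfl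
    rw [H_eq1 η f (bv 2) (bv 4), H_eq1 η f (bv 4) (bv 4), ← hm, e, B2_kil (by decide) _ hk,
      abs_mul, abs_of_nonneg (sq_nonneg _)]
    exact mul_le_mul_of_nonneg_right (ratio (by norm_num) h2) (abs_nonneg _)
  · have h3 : 1 / 16 ≤ ‖z 3‖ ^ 2 := by
      unfold BB at hB
      push Not at h2
      linarith
    have hz : z 3 ≠ 0 := by
      intro h
      rw [h] at h3
      norm_num at h3
    refine ⟨bv 2, bv 4, bv_norm 2, bv_norm 4, ?_⟩
    have e : bv 3 = (-(z 4 / z 3)) • bv 4 + ((-(z 2 / z 3)) • bv 2 +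
        (1 / z 3) • (![0, 0, z 2, z 3, z 4, 0, 0] : E7)) := by
      funext k
      simp only [Pi.add_apply, Pi.smul_apply, smul_eq_mul, bv_def]
      fin_cases k <;> simp <;> field_simp <;> ring
    set m : Fin 8 → E7 := ![f, Complex.I • f, bv 2, Complex.I • bv 2, bv 4,
      Complex.I • bv 4, bv 5, Complex.I • bv 5] with hm
    have hk : Kil η m 4 5 ((-(z 2 / z 3)) • bv 2 +
        (1 / z 3) • (![0, 0, z 2, z 3, z 4, 0, 0] : E7)) := by
      refine Kil.add (by decide) (Kil.smul (by decide) ?_ _)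
        (Kil.smul (by decide) (Kil.of_vert hη m (by decide) (vert2 z)) _)
      exact Kil.of_pair η m (j0 := 2) (j1 := 3) (by decide) (by decide) (by decide)
          (by decide) (by decide) rfl
    rw [H_eq2 η f (bv 3) (bv 2) (bv 4), H_eq2 η f (bv 4) (bv 2) (bv 4), ← hm, e,
      B2_kil (by decide) _ hk, abs_mul, abs_of_nonneg (sq_nonneg _)]
    exact mul_le_mul_of_nonneg_right (ratio (by norm_num) h3) (abs_nonneg _)

theorem step3 (f g g' : E7) (hY : 1 / 2 ≤ YY z) : ∃ h : E7, ‖h‖ ≤ 1 ∧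
    |H η f g g' (bv 5)| ≤ 4 * ‖z 6‖ ^ 2 * |H η f g g' h| := by
  by_cases h1 : 1 / 4 ≤ ‖z 6‖ ^ 2
  · refine ⟨bv 5, bv_norm 5, ?_⟩
    have := abs_nonneg (H η f g g' (bv 5))
    nlinarith
  · have h0 : 1 / 4 ≤ ‖z 5‖ ^ 2 := by
      unfold YY at hY
      push Not at h1
      linarith
    have hz : z 5 ≠ 0 := by
      intro h
      rw [h] at h0
      norm_num at h0
    refine ⟨bv 6, bv_norm 6, ?_⟩
    have e : bv 5 = (-(z 6 / z 5)) • bv 6 +
        (1 / z 5) • (![0, 0, 0, 0, 0, z 5, z 6] : E7) := by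
      funext k
      simp only [Pi.add_apply, Pi.smul_apply, smul_eq_mul, bv_def]
      fin_cases k <;> simp <;> field_simp <;> ring
    set m : Fin 8 → E7 := ![f, Complex.I • f, g, Complex.I • g, g',
      Complex.I • g', bv 6, Complex.I • bv 6] with hm
    have hk : Kil η m 6 7 ((1 / z 5) • (![0, 0, 0, 0, 0, z 5, z 6] : E7)) :=
      Kil.smul (by decide) (Kil.of_vert hη m (by decide) (vert3 z)) _
    rw [H_eq3 η f (bv 5) g g' (bv 6), H_eq3 η f (bv 6) g g' (bv 6), ← hm, e,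
      B2_kil (by decide) _ hk, abs_mul, abs_of_nonneg (sq_nonneg _)]
    exact mul_le_mul_of_nonneg_right (ratio (by norm_num) h0) (abs_nonneg _)

end steps

theorem stdb_eq (η : Alt 7 8) :
    η (fun i : Fin 8 => inc (stdb 4 8 i)) = H η (bv 0) (bv 2) (bv 3) (bv 5) := by
  unfold H
  congr 1
  rw [inc_stdb]
  funext i
  fin_cases i <;> funext k <;> fin_cases k <;> simp [bv_def]

theorem den : DenStmt := by
  refine ⟨256, by norm_num, fun η z hz hη => ?_⟩
  obtain ⟨hA, hA', hD, hD', hY, hY'⟩ := hz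
  obtain ⟨f, hf, h1⟩ := step1 hη hA
  obtain ⟨g, g', hg, hg', h2⟩ := step2 hη f hA' hD
  obtain ⟨h, hh, h3⟩ := step3 hη f g g' hY
  have h4 := H_le η f g g' h hf hg hg' hh
  rw [stdb_eq]
  have a1 : (0 : ℝ) ≤ 4 * ‖z 1‖ ^ 2 := by positivity
  have a2 : (0 : ℝ) ≤ 16 * ‖z 4‖ ^ 2 := by positivity
  have a3 : (0 : ℝ) ≤ 4 * ‖z 6‖ ^ 2 := by positivity
  calc |H η (bv 0) (bv 2) (bv 3) (bv 5)| ≤ 4 * ‖z 1‖ ^ 2 * |H η f (bv 2) (bv 3) (bv 5)| := h1
    _ ≤ 4 * ‖z 1‖ ^ 2 * (16 * ‖z 4‖ ^ 2 * |H η f g g' (bv 5)|) :=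
        mul_le_mul_of_nonneg_left h2 a1
    _ ≤ 4 * ‖z 1‖ ^ 2 * (16 * ‖z 4‖ ^ 2 * (4 * ‖z 6‖ ^ 2 * |H η f g g' h|)) :=
        mul_le_mul_of_nonneg_left (mul_le_mul_of_nonneg_left h3 a2) a1
    _ ≤ 4 * ‖z 1‖ ^ 2 * (16 * ‖z 4‖ ^ 2 * (4 * ‖z 6‖ ^ 2 * ‖η‖)) :=
        mul_le_mul_of_nonneg_left (mul_le_mul_of_nonneg_left
          (mul_le_mul_of_nonneg_left h4 a3) a2) a1
    _ = 256 * (‖z 1‖ * ‖z 4‖ * ‖z 6‖) ^ 2 * ‖η‖ := by ring

end Pool.Agent.SIU.H44
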